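import Pool.Agent.helper22.GS.Spec

/-!
# Project gs (MP_561ff4_al), module AD (helper77)
-/

set_option autoImplicit false

namespace Pool.Agent.GS

open Module

/-- an automorphism of a group acts on the quotient by the centre -/
noncomputable def AD_q {G : Type} [Group G] : MulAut G →* MulAut (G ⧸ Subgroup.center G) where
  toFun f := QuotientGroup.congr (Subgroup.center G) (Subgroup.center G) f
    (Subgroup.characteristic_iff_map_eq.1 Subgroup.centerCharacteristic f)
  map_one' := by
    ext x
    obtain ⟨g, rfl⟩ := QuotientGroup.mk_surjective x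
    rfl
  map_mul' f f' := by
    ext x
    obtain ⟨g, rfl⟩ := QuotientGroup.mk_surjective x
    rfl

theorem AD_q_mk {G : Type} [Group G] (f : MulAut G) (g : G) :
    AD_q f (QuotientGroup.mk g) = QuotientGroup.mk (f g) := rfl

theorem AD : AD_stmt := by
  intro G P _ _ φ hφ
  let e : G ≃* φ.range := MonoidHom.ofInjective hφ
  refine ⟨Subgroup.normalizer (φ.range : Set P),
    AD_q.comp ((MulAut.congr e.symm).toMonoidHom.comp φ.range.normalizerMonoidHom), ?_, ?_⟩
  · intro u h1 h2
    rw [Subgroup.mem_normalizer_iff]
    intro x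
    constructor
    · rintro ⟨g, rfl⟩
      obtain ⟨h, hh⟩ := h1 g
      exact ⟨h, hh⟩
    · rintro ⟨g, hg⟩
      obtain ⟨h, hh⟩ := h2 g
      refine ⟨h, ?_⟩
      rw [hh, hg]
      group
  · intro u g h huh
    change QuotientGroup.mk (e.symm (φ.range.normalizerMonoidHom u (e g))) = QuotientGroup.mk h
    congr 1
    rw [MulEquiv.symm_apply_eq]
    apply Subtype.ext
    change (u : P) * φ g * (u : P)⁻¹ = φ h
    exact huh.symm

end Pool.Agent.GS
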